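import Pool.Agent.H58.FL.TargetsB

/-!
Row CTR of flc_modules: contractible spaces have no homology.
-/

set_option autoImplicit false

namespace Pool.Agent.H72.FL

open Pool.Agent.H58.FL Pool.Agent.H59 Pool.Agent.H48.FR

/-- the only simplex of the one point space -/
def pt (n : ℕ) : Smp n Unit := ContinuousMap.const _ ()

theorem eq_pt {n : ℕ} (σ : Smp n Unit) : σ = pt n := by
  ext1 x
  rfl

theorem chain_eq {n : ℕ} (z : Ch ℤ n Unit) : z = Finsupp.single (pt n) (z (pt n)) := by
  ext σ
  rw [eq_pt σ, Finsupp.single_eq_same]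

theorem bd_pt (n : ℕ) (a : ℤ) : bd ℤ n Unit (Finsupp.single (pt (n + 1)) a) =
    (if Even n then a else 0) • Finsupp.single (pt n) (1 : ℤ) := by
  rw [bd_single]
  have h1 : ∀ i : Fin (n + 1), fc (pt (n + 1)) i = pt n := fun i => eq_pt _
  simp_rw [h1]
  rw [← Finset.sum_smul, Fin.sum_univ_eq_sum_range (fun i => (-1 : ℤ) ^ i) (n + 1),
    neg_one_geom_sum, smul_smul]
  by_cases hn : Even n
  · have h2 : ¬ Even (n + 1) := by
      rw [Nat.even_add_one]
      exact not_not.2 hn
    rw [if_neg h2, if_pos hn, mul_one]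
  · have h2 : Even (n + 1) := Nat.even_add_one.2 hn
    rw [if_pos h2, if_neg hn, mul_zero]

theorem van_unit (n : ℕ) : Van n Unit := by
  intro z hz
  by_cases hn : Even n
  · refine ⟨Finsupp.single (pt (n + 1)) (z (pt n)), ?_⟩
    rw [bd_pt, if_pos hn]
    conv_rhs => rw [chain_eq z]
    rw [Finsupp.smul_single, smul_eq_mul, mul_one]
  · cases n with
    | zero => exact absurd Even.zero hn
    | succ m =>
      have hm : Even m := by
        by_contra h
        exact hn (Nat.even_add_one.2 h)
      have h1 : bd ℤ m Unit z = 0 := hz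
      rw [chain_eq z, bd_pt, if_pos hm, Finsupp.smul_single, smul_eq_mul, mul_one,
        Finsupp.single_eq_zero] at h1
      refine ⟨0, ?_⟩
      rw [map_zero, chain_eq z, h1, Finsupp.single_zero]

theorem pf_CTR (hHEQ : T_HEQ) : T_CTR := by
  intro Y _ _ n
  have e := (ContractibleSpace.hequiv_unit Y).some
  exact ((hHEQ Y Unit e.toFun e.invFun e.left_inv n).1) (van_unit n)

end Pool.Agent.H72.FL
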